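import Pool.Agent.U728.Lie.Stm

set_option autoImplicit false

/-!
# Project LA, package RE: the certificates can be checked by an algorithm

A derivation code is `pair tag (pair c (pair x (pair d₁ d₂)))` with the conclusion
`c = pair σ (pair k θ)`; the rule is `wit`, `cases`, `root` for `tag = 0`, `1`, `≥ 2`.
-/

namespace Pool.Agent.U606.LA.RE

open Pool.Agent.Helper967.AD Pool.Agent.U728.Lie

universe u

def tg (d : ℕ) : ℕ := d.unpair.1
def cn (d : ℕ) : ℕ := d.unpair.2.unpair.1
def dat (d : ℕ) : ℕ := d.unpair.2.unpair.2.unpair.1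
def da (d : ℕ) : ℕ := d.unpair.2.unpair.2.unpair.2.unpair.1
def db (d : ℕ) : ℕ := d.unpair.2.unpair.2.unpair.2.unpair.2
def sg (c : ℕ) : ℕ := c.unpair.1
def kt (c : ℕ) : ℕ := c.unpair.2
def kk (c : ℕ) : ℕ := (kt c).unpair.1
def th (c : ℕ) : ℕ := (kt c).unpair.2
def pp (x : ℕ) : ℕ := x.unpair.1
def mm (x : ℕ) : ℕ := x.unpair.2.unpair.1
def aa (x : ℕ) : ℕ := x.unpair.2.unpair.2.unpair.1
def bb (x : ℕ) : ℕ := x.unpair.2.unpair.2.unpair.2

theorem p1 {α : Type} [Primcodable α] {f : α → ℕ} (h : Primrec f) :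
    Primrec fun a => (f a).unpair.1 := Primrec.fst.comp (Primrec.unpair.comp h)
theorem p2 {α : Type} [Primcodable α] {f : α → ℕ} (h : Primrec f) :
    Primrec fun a => (f a).unpair.2 := Primrec.snd.comp (Primrec.unpair.comp h)

theorem tg_p : Primrec tg := p1 Primrec.id
theorem cn_p : Primrec cn := p1 (p2 Primrec.id)
theorem dat_p : Primrec dat := p1 (p2 (p2 Primrec.id))
theorem da_p : Primrec da := p1 (p2 (p2 (p2 Primrec.id)))
theorem db_p : Primrec db := p2 (p2 (p2 (p2 Primrec.id)))
theorem sg_p : Primrec sg := p1 Primrec.id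
theorem kt_p : Primrec kt := p2 Primrec.id
theorem kk_p : Primrec kk := p1 kt_p
theorem th_p : Primrec th := p2 kt_p
theorem pp_p : Primrec pp := p1 Primrec.id
theorem mm_p : Primrec mm := p1 (p2 Primrec.id)
theorem aa_p : Primrec aa := p1 (p2 (p2 Primrec.id))
theorem bb_p : Primrec bb := p2 (p2 (p2 Primrec.id))

def q0 (d : ℕ) : ℕ := impC (sg (cn d)) (subF (kk (cn d), dat d) (th (cn d)))
def q1 (d : ℕ) : ℕ := impC (sg (cn d)) (orC (sg (cn (da d))) (sg (cn (db d))))
def q2 (d : ℕ) : ℕ := impC (sg (cn d)) (negC (eqC (subT (kk (cn d), aa (dat d)) (pp (dat d)))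
  (subT (kk (cn d), bb (dat d)) (pp (dat d)))))
/-- the formula which must be valid -/
def qq (d : ℕ) : ℕ := if tg d = 0 then q0 d else if tg d = 1 then q1 d else q2 d

def s1 (d : ℕ) : Prop := kt (cn (da d)) = kt (cn d) ∧ kt (cn (db d)) = kt (cn d)
def s2 (d : ℕ) : Prop := sg (cn d) < mm (dat d) ∧ th (cn d) < mm (dat d) ∧
  pp (dat d) < mm (dat d) ∧ kk (cn d) < mm (dat d) ∧
  cn (da d) = Nat.pair (andC (sg (cn d)) (eqC (subT (kk (cn d), varC (mm (dat d))) (pp (dat d)))
    zeroC)) (kt (cn d))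
/-- the side conditions -/
def sc (d : ℕ) : Prop := tg d = 0 ∨ (tg d = 1 ∧ s1 d) ∨ (1 < tg d ∧ s2 d)

instance : DecidablePred sc := fun d => by unfold sc s1 s2; infer_instance

theorem pair_p {α : Type} [Primcodable α] {f g : α → ℕ} (hf : Primrec f) (hg : Primrec g) :
    Primrec fun a => Nat.pair (f a) (g a) := Primrec₂.natPair.comp hf hg
theorem neg_p {α : Type} [Primcodable α] {f : α → ℕ} (hf : Primrec f) :
    Primrec fun a => negC (f a) := pair_p (Primrec.const 1) hf
theorem or_p {α : Type} [Primcodable α] {f g : α → ℕ} (hf : Primrec f) (hg : Primrec g) :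
    Primrec fun a => orC (f a) (g a) := pair_p (Primrec.const 3) (pair_p hf hg)
theorem and_p {α : Type} [Primcodable α] {f g : α → ℕ} (hf : Primrec f) (hg : Primrec g) :
    Primrec fun a => andC (f a) (g a) := pair_p (Primrec.const 2) (pair_p hf hg)
theorem imp_p {α : Type} [Primcodable α] {f g : α → ℕ} (hf : Primrec f) (hg : Primrec g) :
    Primrec fun a => impC (f a) (g a) := or_p (neg_p hf) hg
theorem eq_p {α : Type} [Primcodable α] {f g : α → ℕ} (hf : Primrec f) (hg : Primrec g) :
    Primrec fun a => eqC (f a) (g a) := pair_p (Primrec.const 0) (pair_p hf hg)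

theorem qq_p (hS : Primrec₂ subT) (hS2 : Primrec₂ subF) : Primrec qq := by
  have c1 : PrimrecPred fun d : ℕ => tg d = 0 := Primrec.eq.comp tg_p (Primrec.const 0)
  have c2 : PrimrecPred fun d : ℕ => tg d = 1 := Primrec.eq.comp tg_p (Primrec.const 1)
  have h0 : Primrec q0 := imp_p (sg_p.comp cn_p)
    (hS2.comp (Primrec.pair (kk_p.comp cn_p) dat_p) (th_p.comp cn_p))
  have h1 : Primrec q1 := imp_p (sg_p.comp cn_p)
    (or_p (sg_p.comp (cn_p.comp da_p)) (sg_p.comp (cn_p.comp db_p)))
  have h2 : Primrec q2 := imp_p (sg_p.comp cn_p) (neg_p (eq_p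
    (hS.comp (Primrec.pair (kk_p.comp cn_p) (aa_p.comp dat_p)) (pp_p.comp dat_p))
    (hS.comp (Primrec.pair (kk_p.comp cn_p) (bb_p.comp dat_p)) (pp_p.comp dat_p))))
  exact Primrec.ite c1 h0 (Primrec.ite c2 h1 h2)

theorem sc_p (hS : Primrec₂ subT) : PrimrecPred sc := by
  have c1 : PrimrecPred fun d : ℕ => tg d = 0 := Primrec.eq.comp tg_p (Primrec.const 0)
  have c2 : PrimrecPred fun d : ℕ => tg d = 1 := Primrec.eq.comp tg_p (Primrec.const 1)
  have c3 : PrimrecPred fun d : ℕ => 1 < tg d := Primrec.nat_lt.comp (Primrec.const 1) tg_p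
  have hs1 : PrimrecPred s1 := (Primrec.eq.comp (kt_p.comp (cn_p.comp da_p)) (kt_p.comp cn_p)).and
    (Primrec.eq.comp (kt_p.comp (cn_p.comp db_p)) (kt_p.comp cn_p))
  have hm : Primrec fun d : ℕ => mm (dat d) := mm_p.comp dat_p
  have hs2 : PrimrecPred s2 :=
    (Primrec.nat_lt.comp (sg_p.comp cn_p) hm).and <|
    (Primrec.nat_lt.comp (th_p.comp cn_p) hm).and <|
    (Primrec.nat_lt.comp (pp_p.comp dat_p) hm).and <|
    (Primrec.nat_lt.comp (kk_p.comp cn_p) hm).and <|
    (Primrec.eq.comp (cn_p.comp da_p) (pair_p (and_p (sg_p.comp cn_p) (eq_p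
      (hS.comp (Primrec.pair (kk_p.comp cn_p) (varC_primrec.comp hm)) (pp_p.comp dat_p))
      (Primrec.const zeroC))) (kt_p.comp cn_p)))
  exact c1.or ((c2.and hs1).or (c3.and hs2))

/-- one step: is the derivation with code `l.length` valid, if `l` is the list of the answers for
the smaller codes? -/
def step (D : ℕ → Bool) (l : List Bool) : Bool :=
  (D (qq l.length) && decide (sc l.length)) &&
    ((decide (tg l.length = 0) || l.getD (da l.length) false) &&
      (decide (¬ tg l.length = 1) || l.getD (db l.length) false))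

def vl (D : ℕ → Bool) (n : ℕ) : List Bool :=
  Nat.rec [] (fun _ l => l ++ [step D l]) n

def valid (D : ℕ → Bool) (d : ℕ) : Bool := step D (vl D d)

theorem step_c {D : ℕ → Bool} (hD : Computable D) (hS : Primrec₂ subT) (hS2 : Primrec₂ subF) :
    Computable (step D) := by
  have hl : Primrec fun l : List Bool => l.length := Primrec.list_length
  have c1 : PrimrecPred fun d : ℕ => tg d = 0 := Primrec.eq.comp tg_p (Primrec.const 0)
  have c2 : PrimrecPred fun d : ℕ => ¬ tg d = 1 :=
    (Primrec.eq.comp tg_p (Primrec.const 1)).not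
  have h1 : Computable fun l : List Bool => D (qq l.length) :=
    hD.comp ((qq_p hS hS2).comp hl).to_comp
  have h2 : Primrec fun l : List Bool => decide (sc l.length) := (sc_p hS).decide.comp hl
  have h3 : Primrec fun l : List Bool => decide (tg l.length = 0) := c1.decide.comp hl
  have h4 : Primrec fun l : List Bool => decide (¬ tg l.length = 1) := c2.decide.comp hl
  have h5 : Primrec fun l : List Bool => l.getD (da l.length) false :=
    (Primrec.list_getD false).comp Primrec.id (da_p.comp hl)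
  have h6 : Primrec fun l : List Bool => l.getD (db l.length) false :=
    (Primrec.list_getD false).comp Primrec.id (db_p.comp hl)
  have h7 : Primrec fun l : List Bool => ((decide (tg l.length = 0) || l.getD (da l.length) false) &&
      (decide (¬ tg l.length = 1) || l.getD (db l.length) false)) :=
    Primrec.and.comp (Primrec.or.comp h3 h5) (Primrec.or.comp h4 h6)
  exact Primrec.and.to_comp.comp (Primrec.and.to_comp.comp h1 h2.to_comp) h7.to_comp

theorem vl_c {D : ℕ → Bool} (hD : Computable D) (hS : Primrec₂ subT) (hS2 : Primrec₂ subF) :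
    Computable (vl D) := by
  have h := step_c hD hS hS2
  exact Computable.nat_rec Computable.id (Computable.const [])
    (Computable.list_concat.comp (Computable.snd.comp Computable.snd)
      (h.comp (Computable.snd.comp Computable.snd))).to₂

theorem vl_length (D : ℕ → Bool) (n : ℕ) : (vl D n).length = n := by
  induction n with
  | zero => rfl
  | succ n ih =>
    change (vl D n ++ [step D (vl D n)]).length = n + 1
    simp [ih]

theorem vl_getD (D : ℕ → Bool) (n i : ℕ) :
    (vl D n).getD i false = true ↔ i < n ∧ valid D i = true := by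
  induction n with
  | zero => simp [vl]
  | succ n ih =>
    have hlen := vl_length D n
    change (vl D n ++ [step D (vl D n)]).getD i false = true ↔ _
    rcases lt_trichotomy i n with h | h | h
    · rw [List.getD_append _ _ _ _ (by omega), ih]
      constructor
      · rintro ⟨_, h2⟩; exact ⟨by omega, h2⟩
      · rintro ⟨_, h2⟩; exact ⟨h, h2⟩
    · subst h
      rw [List.getD_append_right _ _ _ _ (by omega), hlen, Nat.sub_self]
      change step D (vl D i) = true ↔ _
      exact ⟨fun h => ⟨by omega, h⟩, fun h => h.2⟩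
    · rw [List.getD_append_right _ _ _ _ (by omega), hlen]
      constructor
      · intro h2
        rw [List.getD_eq_default _ _ (by simp; omega)] at h2
        exact absurd h2 (by simp)
      · rintro ⟨h2, _⟩; omega

theorem valid_iff (D : ℕ → Bool) (d : ℕ) : valid D d = true ↔
    (D (qq d) = true ∧ sc d) ∧ ((tg d = 0 ∨ (da d < d ∧ valid D (da d) = true)) ∧
      (¬ tg d = 1 ∨ (db d < d ∧ valid D (db d) = true))) := by
  conv_lhs => unfold valid step
  rw [vl_length]
  simp only [Bool.and_eq_true, Bool.or_eq_true, decide_eq_true_eq, vl_getD]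

section
variable {F : Type u} [Field F] [CharZero F]

theorem sg_pair (a b : ℕ) : sg (Nat.pair a b) = a := by
  simp only [sg, Nat.unpair_pair]

theorem kk_pair (a c : ℕ) : kk (Nat.pair a (kt c)) = kk c := by
  simp only [kk, kt, Nat.unpair_pair]

theorem th_pair (a c : ℕ) : th (Nat.pair a (kt c)) = th c := by
  simp only [th, kt, Nat.unpair_pair]

theorem sound {D : ℕ → Bool} (hD : ∀ n, D n = true ↔ U F n) (d : ℕ) :
    valid D d = true → W F (sg (cn d)) (kk (cn d)) (th (cn d)) := by
  induction d using Nat.strong_induction_on with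
  | _ d ih =>
    intro h
    rw [valid_iff] at h
    obtain ⟨⟨hq, hs⟩, h1, h2⟩ := h
    rw [hD] at hq
    rcases hs with h0 | ⟨h0, hs⟩ | ⟨h0, hs⟩
    · unfold qq at hq
      rw [if_pos h0] at hq
      exact W.wit _ _ _ _ hq
    · unfold qq at hq
      rw [if_neg (by omega), if_pos h0] at hq
      have h1' := h1.resolve_left (by omega)
      have h2' := h2.resolve_left (by omega)
      have w1 := ih _ h1'.1 h1'.2
      have w2 := ih _ h2'.1 h2'.2
      unfold kk th at w1 w2
      rw [hs.1] at w1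
      rw [hs.2] at w2
      exact W.cases _ _ _ _ _ hq w1 w2
    · unfold qq at hq
      rw [if_neg (by omega), if_neg (by omega)] at hq
      have h1' := h1.resolve_left (by omega)
      have w1 := ih _ h1'.1 h1'.2
      obtain ⟨a1, a2, a3, a4, a5⟩ := hs
      rw [a5, sg_pair, kk_pair, th_pair] at w1
      exact W.root (sg (cn d)) (kk (cn d)) (th (cn d)) (pp (dat d)) (mm (dat d)) (aa (dat d))
        (bb (dat d)) a1 a2 a3 a4 hq w1

theorem complete {D : ℕ → Bool} (hD : ∀ n, D n = true ↔ U F n) {σ k θ : ℕ} (w : W F σ k θ) :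
    ∃ d, valid D d = true ∧ cn d = Nat.pair σ (Nat.pair k θ) := by
  induction w with
  | wit σ k θ t h =>
    obtain ⟨d, hd⟩ : ∃ d, d = Nat.pair 0 (Nat.pair (Nat.pair σ (Nat.pair k θ))
      (Nat.pair t (Nat.pair 0 0))) := ⟨_, rfl⟩
    have e1 : tg d = 0 := by simp only [tg, hd, Nat.unpair_pair]
    have e2 : cn d = Nat.pair σ (Nat.pair k θ) := by simp only [cn, hd, Nat.unpair_pair]
    have e4 : dat d = t := by simp only [dat, hd, Nat.unpair_pair]
    refine ⟨d, ?_, e2⟩
    rw [valid_iff]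
    refine ⟨⟨?_, Or.inl e1⟩, Or.inl e1, Or.inl (by omega)⟩
    rw [hD]
    unfold qq
    rw [if_pos e1]
    unfold q0
    rw [e2, e4]
    simpa only [sg, kk, th, kt, Nat.unpair_pair] using h
  | cases σ σ₁ σ₂ k θ h h₁ h₂ ih1 ih2 =>
    obtain ⟨d1, v1, c1⟩ := ih1
    obtain ⟨d2, v2, c2⟩ := ih2
    obtain ⟨d, hd⟩ : ∃ d, d = Nat.pair 1 (Nat.pair (Nat.pair σ (Nat.pair k θ))
      (Nat.pair 0 (Nat.pair d1 d2))) := ⟨_, rfl⟩
    have e1 : tg d = 1 := by simp only [tg, hd, Nat.unpair_pair]
    have e2 : cn d = Nat.pair σ (Nat.pair k θ) := by simp only [cn, hd, Nat.unpair_pair]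
    have e3 : da d = d1 := by simp only [da, hd, Nat.unpair_pair]
    have e4 : db d = d2 := by simp only [db, hd, Nat.unpair_pair]
    have l0 : 1 + Nat.pair (Nat.pair σ (Nat.pair k θ)) (Nat.pair 0 (Nat.pair d1 d2)) ≤ d := by
      rw [hd]; exact Nat.add_le_pair _ _
    have l1 := Nat.right_le_pair (Nat.pair σ (Nat.pair k θ)) (Nat.pair 0 (Nat.pair d1 d2))
    have l2 := Nat.right_le_pair 0 (Nat.pair d1 d2)
    have l3 := Nat.left_le_pair d1 d2
    have l4 := Nat.right_le_pair d1 d2
    refine ⟨d, ?_, e2⟩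
    rw [valid_iff, e3, e4]
    refine ⟨⟨?_, Or.inr (Or.inl ⟨e1, ?_⟩)⟩, Or.inr ⟨by omega, v1⟩, Or.inr ⟨by omega, v2⟩⟩
    · rw [hD]
      unfold qq
      rw [if_neg (by omega), if_pos e1]
      unfold q1
      rw [e3, e4, e2, c1, c2]
      simpa only [sg, Nat.unpair_pair] using h
    · unfold s1
      rw [e3, e4, e2, c1, c2]
      simp only [kt, Nat.unpair_pair, and_self]
  | root σ k θ p m a b hσ hθ hp hk h h' ih =>
    obtain ⟨d1, v1, c1⟩ := ih
    obtain ⟨d, hd⟩ : ∃ d, d = Nat.pair 2 (Nat.pair (Nat.pair σ (Nat.pair k θ))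
      (Nat.pair (Nat.pair p (Nat.pair m (Nat.pair a b))) (Nat.pair d1 0))) := ⟨_, rfl⟩
    have e1 : tg d = 2 := by simp only [tg, hd, Nat.unpair_pair]
    have e2 : cn d = Nat.pair σ (Nat.pair k θ) := by simp only [cn, hd, Nat.unpair_pair]
    have e3 : da d = d1 := by simp only [da, hd, Nat.unpair_pair]
    have e4 : dat d = Nat.pair p (Nat.pair m (Nat.pair a b)) := by
      simp only [dat, hd, Nat.unpair_pair]
    have l0 : 2 + Nat.pair (Nat.pair σ (Nat.pair k θ))
      (Nat.pair (Nat.pair p (Nat.pair m (Nat.pair a b))) (Nat.pair d1 0)) ≤ d := by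
      rw [hd]; exact Nat.add_le_pair _ _
    have l1 := Nat.right_le_pair (Nat.pair σ (Nat.pair k θ))
      (Nat.pair (Nat.pair p (Nat.pair m (Nat.pair a b))) (Nat.pair d1 0))
    have l2 := Nat.right_le_pair (Nat.pair p (Nat.pair m (Nat.pair a b))) (Nat.pair d1 0)
    have l3 := Nat.left_le_pair d1 0
    refine ⟨d, ?_, e2⟩
    rw [valid_iff, e3]
    refine ⟨⟨?_, Or.inr (Or.inr ⟨by omega, ?_⟩)⟩, Or.inr ⟨by omega, v1⟩, Or.inl (by omega)⟩
    · rw [hD]
      unfold qq
      rw [if_neg (by omega), if_neg (by omega)]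
      unfold q2
      rw [e2, e4]
      simpa only [sg, kk, kt, aa, bb, pp, Nat.unpair_pair] using h
    · unfold s2
      rw [e2, e3, e4, c1]
      simp only [sg, th, kk, kt, mm, pp, Nat.unpair_pair]
      exact ⟨hσ, hθ, hp, hk, trivial⟩

end

theorem t_RE (hS : S_SUB.{u}) (hD : S_DEC.{u}) : S_RE.{u} := by
  intro F _ _ _
  obtain ⟨D, hDc, hDU⟩ := hD F
  obtain ⟨hS1, hS2, _⟩ := hS
  refine ⟨fun d x => valid D d && decide (cn d = Nat.pair x.1 (Nat.pair x.2.1 x.2.2)), ?_, ?_⟩
  · have h1 : Computable fun z : ℕ × (ℕ × ℕ × ℕ) => valid D z.1 :=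
      (step_c hDc hS1 hS2).comp ((vl_c hDc hS1 hS2).comp Computable.fst)
    have c : PrimrecPred fun z : ℕ × (ℕ × ℕ × ℕ) =>
        cn z.1 = Nat.pair z.2.1 (Nat.pair z.2.2.1 z.2.2.2) :=
      Primrec.eq.comp (cn_p.comp Primrec.fst) (pair_p (Primrec.fst.comp Primrec.snd)
        (pair_p (Primrec.fst.comp (Primrec.snd.comp Primrec.snd))
          (Primrec.snd.comp (Primrec.snd.comp Primrec.snd))))
    exact Primrec.and.to_comp.comp h1 c.decide.to_comp
  · intro σ k θ
    constructor
    · intro w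
      obtain ⟨d, hv, hc⟩ := complete hDU w
      refine ⟨d, ?_⟩
      rw [Bool.and_eq_true, decide_eq_true_eq]
      exact ⟨hv, hc⟩
    · rintro ⟨d, hd⟩
      rw [Bool.and_eq_true, decide_eq_true_eq] at hd
      have h := sound hDU d hd.1
      rw [hd.2] at h
      simpa only [sg, kk, th, kt, Nat.unpair_pair] using h

end Pool.Agent.U606.LA.RE
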